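import Pool.Agent.Helper25.DI.Defs

/-!
# MP_506470_co, module DI B0 : Ramsey theorems for pairs
-/

namespace SetHom

variable {V : Type} {G : SimpleGraph V}

private theorem B0_ramsey : ∀ (n s t : ℕ), s + t = n → ∀ (c : ℕ → ℕ → Prop) (A : Finset ℕ),
    2 ^ n ≤ A.card →
    (∃ B ⊆ A, B.card = s ∧ ∀ i ∈ B, ∀ j ∈ B, i < j → c i j) ∨
    (∃ B ⊆ A, B.card = t ∧ ∀ i ∈ B, ∀ j ∈ B, i < j → ¬ c i j) := by
  classical
  intro n
  induction n with
  | zero =>
    intro s t hst c A hA
    left
    exact ⟨∅, by simp, by simp; omega, by simp⟩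
  | succ n ih =>
    intro s t hst c A hA
    rcases Nat.eq_zero_or_pos s with hs | hs
    · left
      exact ⟨∅, by simp, by simp [hs], by simp⟩
    rcases Nat.eq_zero_or_pos t with ht | ht
    · right
      exact ⟨∅, by simp, by simp [ht], by simp⟩
    have hne : A.Nonempty := by
      rw [← Finset.card_pos]
      exact lt_of_lt_of_le (by positivity) hA
    set a := A.min' hne with ha
    have haA : a ∈ A := A.min'_mem hne
    have hmin : ∀ b ∈ A, a ≤ b := fun b hb => A.min'_le b hb
    set A1 := (A.erase a).filter (fun b => c a b) with hA1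
    set A2 := (A.erase a).filter (fun b => ¬ c a b) with hA2
    have hcard : A1.card + A2.card = A.card - 1 := by
      rw [← Finset.card_erase_of_mem haA]
      exact Finset.card_filter_add_card_filter_not _
    have hpow : 2 ^ (n + 1) = 2 * 2 ^ n := by ring
    have h12 : 2 ^ n ≤ A1.card ∨ 2 ^ n ≤ A2.card := by
      by_contra hcon
      push Not at hcon
      have := Nat.one_le_two_pow (n := n)
      omega
    rcases h12 with h1 | h2
    · rcases ih (s - 1) t (by omega) c A1 h1 with ⟨B, hB, hBc, hBh⟩ | ⟨B, hB, hBc, hBh⟩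
      · left
        have haB : a ∉ B := fun h => by
          have := hB h
          rw [hA1, Finset.mem_filter] at this
          exact absurd rfl (Finset.ne_of_mem_erase this.1)
        refine ⟨insert a B, ?_, ?_, ?_⟩
        · intro x hx
          rcases Finset.mem_insert.1 hx with rfl | hx
          · exact haA
          · exact Finset.mem_of_mem_erase (Finset.mem_filter.1 (hB hx)).1
        · rw [Finset.card_insert_of_notMem haB, hBc]
          omega
        · intro i hi j hj hij
          rcases Finset.mem_insert.1 hi with rfl | hi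
          · rcases Finset.mem_insert.1 hj with h | hj
            · omega
            · exact (Finset.mem_filter.1 (hB hj)).2
          · rcases Finset.mem_insert.1 hj with rfl | hj
            · have := hmin i (Finset.mem_of_mem_erase (Finset.mem_filter.1 (hB hi)).1)
              omega
            · exact hBh i hi j hj hij
      · right
        exact ⟨B, fun x hx => Finset.mem_of_mem_erase (Finset.mem_filter.1 (hB hx)).1, hBc, hBh⟩
    · rcases ih s (t - 1) (by omega) c A2 h2 with ⟨B, hB, hBc, hBh⟩ | ⟨B, hB, hBc, hBh⟩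
      · left
        exact ⟨B, fun x hx => Finset.mem_of_mem_erase (Finset.mem_filter.1 (hB hx)).1, hBc, hBh⟩
      · right
        have haB : a ∉ B := fun h => by
          have := hB h
          rw [hA2, Finset.mem_filter] at this
          exact absurd rfl (Finset.ne_of_mem_erase this.1)
        refine ⟨insert a B, ?_, ?_, ?_⟩
        · intro x hx
          rcases Finset.mem_insert.1 hx with rfl | hx
          · exact haA
          · exact Finset.mem_of_mem_erase (Finset.mem_filter.1 (hB hx)).1
        · rw [Finset.card_insert_of_notMem haB, hBc]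
          omega
        · intro i hi j hj hij
          rcases Finset.mem_insert.1 hi with rfl | hi
          · rcases Finset.mem_insert.1 hj with h | hj
            · omega
            · exact (Finset.mem_filter.1 (hB hj)).2
          · rcases Finset.mem_insert.1 hj with rfl | hj
            · have := hmin i (Finset.mem_of_mem_erase (Finset.mem_filter.1 (hB hi)).1)
              omega
            · exact hBh i hi j hj hij

theorem ramsey_fin (s : ℕ) : ∃ R : ℕ, ∀ c : ℕ → ℕ → Prop,
    ∃ f : Fin s → ℕ, StrictMono f ∧ (∀ i, f i < R) ∧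
      ((∀ i j, i < j → c (f i) (f j)) ∨ ∀ i j, i < j → ¬ c (f i) (f j)) := by
  refine ⟨2 ^ (s + s), fun c => ?_⟩
  have h := B0_ramsey (s + s) s s rfl c (Finset.range (2 ^ (s + s))) (by simp)
  rcases h with ⟨B, hB, hBc, hBh⟩ | ⟨B, hB, hBc, hBh⟩
  · refine ⟨B.orderEmbOfFin hBc, (B.orderEmbOfFin hBc).strictMono, fun i => ?_, Or.inl ?_⟩
    · exact Finset.mem_range.1 (hB (B.orderEmbOfFin_mem hBc i))
    · intro i j hij
      exact hBh _ (B.orderEmbOfFin_mem hBc i) _ (B.orderEmbOfFin_mem hBc j)
        ((B.orderEmbOfFin hBc).strictMono hij)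
  · refine ⟨B.orderEmbOfFin hBc, (B.orderEmbOfFin hBc).strictMono, fun i => ?_, Or.inr ?_⟩
    · exact Finset.mem_range.1 (hB (B.orderEmbOfFin_mem hBc i))
    · intro i j hij
      exact hBh _ (B.orderEmbOfFin_mem hBc i) _ (B.orderEmbOfFin_mem hBc j)
        ((B.orderEmbOfFin hBc).strictMono hij)

theorem ramsey_inf {S : Set V} (hS : S.Infinite) {s : ℕ}
    (hb : ∀ A : Finset V, (A : Set V) ⊆ S → Indep G A → A.card ≤ s) :
    ∃ κ : ℕ → V, Function.Injective κ ∧ (∀ n, κ n ∈ S) ∧ ∀ m n, m ≠ n → G.Adj (κ m) (κ n) := by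
  classical
  let e := hS.natEmbedding
  let u : ℕ → V := fun n => (e n : V)
  have hu : Function.Injective u := fun a b hab => e.injective (Subtype.ext hab)
  have huS : ∀ n, u n ∈ S := fun n => (e n).2
  let U : Ultrafilter ℕ := Filter.hyperfilter ℕ
  have hne : ∀ n : ℕ, ∀ᶠ m in (U : Filter ℕ), n ≠ m := by
    intro n
    have h1 : ∀ᶠ m in (Filter.cofinite : Filter ℕ), m ≠ n := by
      have := (Set.finite_singleton n).compl_mem_cofinite
      exact this
    have h2 := Filter.hyperfilter_le_cofinite h1
    filter_upwards [h2] with m hm using hm.symm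
  by_cases hP : ∀ᶠ n in (U : Filter ℕ), ∀ᶠ m in (U : Filter ℕ), G.Adj (u n) (u m)
  · obtain ⟨f, -, hf⟩ := exists_seq_of_forall_finset_exists
      (fun n => ∀ᶠ m in (U : Filter ℕ), G.Adj (u n) (u m)) (fun n m => G.Adj (u n) (u m)) (by
        intro T hT
        have h1 : ∀ᶠ m in (U : Filter ℕ), ∀ x ∈ T, G.Adj (u x) (u m) :=
          (Filter.eventually_all_finset T).2 hT
        obtain ⟨m, hm1, hm2⟩ := (hP.and h1).exists
        exact ⟨m, hm1, hm2⟩)
    have hadj : ∀ m n, m ≠ n → G.Adj (u (f m)) (u (f n)) := by
      intro m n hmn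
      rcases lt_or_gt_of_ne hmn with h | h
      · exact hf m n h
      · exact (hf n m h).symm
    refine ⟨fun n => u (f n), ?_, fun n => huS _, hadj⟩
    intro m n hmn
    by_contra hne'
    exact (hadj m n hne').ne hmn
  · exfalso
    have hP' : ∀ᶠ n in (U : Filter ℕ), ¬ ∀ᶠ m in (U : Filter ℕ), G.Adj (u n) (u m) :=
      Ultrafilter.eventually_not.2 hP
    have hP2 : ∀ᶠ n in (U : Filter ℕ), ∀ᶠ m in (U : Filter ℕ), ¬ G.Adj (u n) (u m) := by
      filter_upwards [hP'] with n hn using Ultrafilter.eventually_not.2 hn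
    obtain ⟨f, -, hf⟩ := exists_seq_of_forall_finset_exists
      (fun n => ∀ᶠ m in (U : Filter ℕ), ¬ G.Adj (u n) (u m))
      (fun n m => ¬ G.Adj (u n) (u m) ∧ n ≠ m) (by
        intro T hT
        have h1 : ∀ᶠ m in (U : Filter ℕ), ∀ x ∈ T, ¬ G.Adj (u x) (u m) ∧ x ≠ m :=
          (Filter.eventually_all_finset T).2 (fun x hx => (hT x hx).and (hne x))
        obtain ⟨m, hm1, hm2⟩ := (hP2.and h1).exists
        exact ⟨m, hm1, hm2⟩)
    have hadj : ∀ m n, ¬ G.Adj (u (f m)) (u (f n)) := by
      intro m n
      rcases lt_trichotomy m n with h | h | h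
      · exact (hf m n h).1
      · rw [h]
        exact G.irrefl
      · intro h2
        exact (hf n m h).1 h2.symm
    have hinj : Function.Injective (fun n => u (f n)) := by
      intro m n hmn
      by_contra hne'
      have h1 : f m = f n := hu hmn
      rcases lt_or_gt_of_ne hne' with h | h
      · exact (hf m n h).2 h1
      · exact (hf n m h).2 h1.symm
    have := hb ((Finset.range (s + 1)).image (fun n => u (f n))) (by
      intro x hx
      simp only [Finset.coe_image, Set.mem_image] at hx
      obtain ⟨n, -, rfl⟩ := hx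
      exact huS _) (by
      intro x hx y hy
      simp only [Finset.mem_image] at hx hy
      obtain ⟨n, -, rfl⟩ := hx
      obtain ⟨m, -, rfl⟩ := hy
      exact hadj n m)
    rw [Finset.card_image_of_injective _ hinj, Finset.card_range] at this
    omega

end SetHom
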