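import Pool.Agent.Helper74.DI.St

/-!
# Project DI, module RNH
-/

set_option autoImplicit false

namespace Pool.Agent.Helper8.DI

open Pool.Agent.Helper74 Pool.Agent.Helper74.DI

private theorem run_nops (n : ℕ) (c : Bool × ℤ × ℤ) : run (List.replicate n Op.nop) c = c := by
  induction n with
  | zero => rfl
  | succ n ih => rw [List.replicate_succ, run_cons]; exact ih

private theorem no_nops (n : ℕ) : no (List.replicate n Op.nop) = 0 := by
  induction n with
  | zero => rfl
  | succ n ih => rw [List.replicate_succ]; exact ih

private theorem no_le (w : List Op) : no w ≤ w.length := by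
  induction w with
  | nil => simp [no]
  | cons a w ih =>
    cases a <;> simp [no] <;> omega

private theorem run_hw (hAVR : StAVR) {G : Type} (φ ψ : G → ℕ × Bool) (a : G) (b : Bool)
    (v : ℤ × ℤ) : run (hw φ ψ a) (b, v) = (!b, Av v (if b then φ a else ψ a)) := by
  unfold hw
  rw [run_append]
  cases b with
  | true =>
    rw [(hAVR (φ a) v).1, run_cons]
    show run _ (false, Av v (φ a)) = _
    rw [run_append, (hAVR (ψ a) _).2, run_nops]
    rfl
  | false =>
    rw [(hAVR (φ a) v).2, run_cons]
    show run _ (true, v) = _
    rw [run_append, (hAVR (ψ a) v).1, run_nops]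
    rfl

theorem hRNH (hAVR : StAVR) : Pool.Agent.Helper74.DI.StRNH := by
  intro G φ ψ w
  constructor
  · induction w with
    | nil => intro b v; rfl
    | cons a w ih =>
      intro b v
      rw [List.flatMap_cons, run_append, run_hw hAVR, ih]
      rfl
  · induction w with
    | nil => simp [no]
    | cons a w ih =>
      rw [List.flatMap_cons, no_append, List.length_append]
      have h1 : 2 * no (hw φ ψ a) ≤ (hw φ ψ a).length := by
        unfold hw
        have e1 := no_le (ow (φ a))
        have e2 := no_le (ow (ψ a))
        have e3 : no (Op.tog :: (ow (ψ a) ++ List.replicate (no (ow (φ a)) + no (ow (ψ a)) + 1)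
            Op.nop)) = no (ow (ψ a)) := by
          show no (ow (ψ a) ++ List.replicate (no (ow (φ a)) + no (ow (ψ a)) + 1) Op.nop) = _
          rw [no_append, no_nops, add_zero]
        rw [no_append, e3]
        simp only [List.length_append, List.length_cons, List.length_replicate]
        omega
      omega

end Pool.Agent.Helper8.DI
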